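import Pool.Agent.helper14.NS.Q20b.PZ

/-!
Generated: certificates.
-/

namespace Pool.Agent.helper14.NS.Q20b

open Pool.Agent.helper31.IA (Z)
open Pool.Agent.helper31.IX (Op XOps runX Cov CovD cov_split covD_split)
open Pool.Agent.helper31.IC (TD)
open Pool.Agent.helper63.RG (reloc)
open Pool.Agent.helper63.NF hiding TD
open Pool.Agent.helper4.NS
open Pool.Agent.helper14.CF (xE covD_E)
open Pool.Agent.helper14.NR (share)

mutual
theorem Z_c0_t4 : CovD 1 gZ [(41231581184, 4581752832), (309237645312, 34359738368), (206158430208, 206158430208)] :=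
  covD_E kZ_eq (.n 2 (.n 2 (.n 2 (.n 2 (.l 0) (.l 0)) (.n 2 (.l 0) (.l 0))) (.n 2 (.n 2 (.l 0) (.l 0)) (.n 1 (.l 0) (.l 0)))) (.n 2 (.n 0 (.n 2 (.l 0) (.l 0)) (.n 2 (.l 0) (.l 0))) (.n 2 (.n 0 (.l 0) (.l 0)) (.l 0))))
    [(41231581184, 4581752832), (309237645312, 34359738368), (206158430208, 206158430208)] rfl (by decide +kernel)
theorem Z_c0_t5 : CovD 1 gZ [(50395086848, 4581752832), (309237645312, 34359738368), (206158430208, 206158430208)] :=
  covD_E kZ_eq (.n 2 (.n 2 (.n 1 (.n 2 (.l 0) (.l 0)) (.n 2 (.l 0) (.l 0))) (.n 2 (.n 0 (.l 0) (.l 0)) (.l 0))) (.n 2 (.n 2 (.l 0) (.l 0)) (.n 2 (.l 0) (.l 0))))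
    [(50395086848, 4581752832), (309237645312, 34359738368), (206158430208, 206158430208)] rfl (by decide +kernel)
end

mutual
theorem Z_c0_t7 : CovD 1 gZ [(45813334016, 9163505664), (377957122048, 34359738368), (103079215104, 103079215104)] :=
  covD_E kZ_eq (.n 2 (.n 2 (.n 2 (.l 0) (.l 0)) (.n 0 (.n 2 (.l 0) (.l 0)) (.n 0 (.l 0) (.l 0)))) (.n 2 (.n 2 (.l 0) (.l 0)) (.n 0 (.l 0) (.l 0))))
    [(45813334016, 9163505664), (377957122048, 34359738368), (103079215104, 103079215104)] rfl (by decide +kernel)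
theorem Z_c0_t8 : CovD 1 gZ [(45813334016, 9163505664), (377957122048, 34359738368), (309237645312, 103079215104)] :=
  covD_E kZ_eq (.n 0 (.n 2 (.n 2 (.l 0) (.l 0)) (.n 2 (.l 0) (.l 0))) (.n 2 (.n 2 (.l 0) (.l 0)) (.n 2 (.l 0) (.l 0))))
    [(45813334016, 9163505664), (377957122048, 34359738368), (309237645312, 103079215104)] rfl (by decide +kernel)
end

mutual
theorem Z_c0_t11 : CovD 1 gZ [(41231581184, 4581752832), (309237645312, 34359738368), (618475290624, 206158430208)] :=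
  covD_E kZ_eq (.n 2 (.n 2 (.n 2 (.l 0) (.l 0)) (.n 2 (.l 0) (.l 0))) (.n 2 (.n 2 (.l 0) (.l 0)) (.n 2 (.l 0) (.n 0 (.l 0) (.l 0)))))
    [(41231581184, 4581752832), (309237645312, 34359738368), (618475290624, 206158430208)] rfl (by decide +kernel)
theorem Z_c0_t12 : CovD 1 gZ [(41231581184, 4581752832), (377957122048, 34359738368), (618475290624, 206158430208)] :=
  covD_E kZ_eq (.n 2 (.n 2 (.n 2 (.l 0) (.l 0)) (.n 2 (.l 0) (.l 0))) (.n 2 (.n 2 (.l 0) (.l 0)) (.n 2 (.l 0) (.l 0))))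
    [(41231581184, 4581752832), (377957122048, 34359738368), (618475290624, 206158430208)] rfl (by decide +kernel)
end

mutual
theorem Z_c0_t13 : CovD 1 gZ [(50395086848, 4581752832), (343597383680, 68719476736), (618475290624, 206158430208)] :=
  covD_E kZ_eq (.n 2 (.n 0 (.n 2 (.n 2 (.l 0) (.l 0)) (.n 2 (.l 0) (.l 0))) (.n 2 (.n 2 (.l 0) (.l 0)) (.n 2 (.l 0) (.l 0)))) (.n 2 (.n 2 (.n 0 (.l 0) (.l 0)) (.l 0)) (.n 1 (.n 2 (.l 0) (.l 0)) (.n 0 (.l 0) (.l 0)))))
    [(50395086848, 4581752832), (343597383680, 68719476736), (618475290624, 206158430208)] rfl (by decide +kernel)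
theorem Z_c0_t16 : CovD 1 gZ [(41231581184, 4581752832), (481036337152, 68719476736), (206158430208, 206158430208)] :=
  covD_E kZ_eq (.n 2 (.n 2 (.n 2 (.n 2 (.l 0) (.l 0)) (.n 2 (.l 0) (.l 0))) (.n 1 (.n 2 (.l 0) (.l 0)) (.n 2 (.l 0) (.l 0)))) (.n 2 (.n 2 (.n 0 (.l 0) (.l 0)) (.l 0)) (.n 2 (.l 0) (.l 0))))
    [(41231581184, 4581752832), (481036337152, 68719476736), (206158430208, 206158430208)] rfl (by decide +kernel)
end

mutual
theorem Z_c0_t17 : CovD 1 gZ [(41231581184, 4581752832), (481036337152, 68719476736), (618475290624, 206158430208)] :=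
  covD_E kZ_eq (.n 2 (.n 2 (.n 2 (.l 0) (.l 0)) (.n 2 (.l 0) (.l 0))) (.n 2 (.n 2 (.l 0) (.l 0)) (.n 2 (.l 0) (.n 0 (.l 0) (.l 0)))))
    [(41231581184, 4581752832), (481036337152, 68719476736), (618475290624, 206158430208)] rfl (by decide +kernel)
theorem Z_c0_t19 : CovD 1 gZ [(50395086848, 4581752832), (481036337152, 68719476736), (206158430208, 206158430208)] :=
  covD_E kZ_eq (.n 2 (.n 1 (.n 2 (.n 2 (.l 0) (.l 0)) (.n 2 (.l 0) (.l 0))) (.n 2 (.n 2 (.l 0) (.l 0)) (.n 2 (.l 0) (.l 0)))) (.n 2 (.n 2 (.n 0 (.l 0) (.l 0)) (.l 0)) (.n 2 (.l 0) (.l 0))))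
    [(50395086848, 4581752832), (481036337152, 68719476736), (206158430208, 206158430208)] rfl (by decide +kernel)
end

mutual
theorem Z_c0_t20 : CovD 1 gZ [(50395086848, 4581752832), (481036337152, 68719476736), (618475290624, 206158430208)] :=
  covD_E kZ_eq (.n 2 (.n 2 (.n 2 (.l 0) (.l 0)) (.n 2 (.l 0) (.l 0))) (.n 2 (.n 2 (.l 0) (.l 0)) (.n 2 (.l 0) (.l 0))))
    [(50395086848, 4581752832), (481036337152, 68719476736), (618475290624, 206158430208)] rfl (by decide +kernel)
theorem T_c0 : CovD 1 gT [(45813334016, 9163505664), (412316860416, 137438953472)] :=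
  covD_E kT_eq (.n 0 (.n 1 (.l 0) (.n 1 (.l 0) (.l 0))) (.l 0))
    [(45813334016, 9163505664), (412316860416, 137438953472)] rfl (by decide +kernel)
end

theorem S_c0 : CovD 0 gS [(45813334016, 9163505664), (412316860416, 137438953472)] :=
  covD_E kS_eq (.l 0)
    [(45813334016, 9163505664), (412316860416, 137438953472)] rfl (by decide +kernel)

theorem Z_c0_t3 : CovD 1 gZ [(45813334016, 9163505664), (309237645312, 34359738368), (206158430208, 206158430208)] :=
  covD_split 0 (by decide +kernel) Z_c0_t4 Z_c0_t5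

theorem Z_c0_t6 : CovD 1 gZ [(45813334016, 9163505664), (377957122048, 34359738368), (206158430208, 206158430208)] :=
  covD_split 2 (by decide +kernel) Z_c0_t7 Z_c0_t8

theorem Z_c0_t2 : CovD 1 gZ [(45813334016, 9163505664), (343597383680, 68719476736), (206158430208, 206158430208)] :=
  covD_split 1 (by decide +kernel) Z_c0_t3 Z_c0_t6

theorem Z_c0_t10 : CovD 1 gZ [(41231581184, 4581752832), (343597383680, 68719476736), (618475290624, 206158430208)] :=
  covD_split 1 (by decide +kernel) Z_c0_t11 Z_c0_t12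

theorem Z_c0_t9 : CovD 1 gZ [(45813334016, 9163505664), (343597383680, 68719476736), (618475290624, 206158430208)] :=
  covD_split 0 (by decide +kernel) Z_c0_t10 Z_c0_t13

theorem Z_c0_t1 : CovD 1 gZ [(45813334016, 9163505664), (343597383680, 68719476736), (412316860416, 412316860416)] :=
  covD_split 2 (by decide +kernel) Z_c0_t2 Z_c0_t9

theorem Z_c0_t15 : CovD 1 gZ [(41231581184, 4581752832), (481036337152, 68719476736), (412316860416, 412316860416)] :=
  covD_split 2 (by decide +kernel) Z_c0_t16 Z_c0_t17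

theorem Z_c0_t18 : CovD 1 gZ [(50395086848, 4581752832), (481036337152, 68719476736), (412316860416, 412316860416)] :=
  covD_split 2 (by decide +kernel) Z_c0_t19 Z_c0_t20

theorem Z_c0_t14 : CovD 1 gZ [(45813334016, 9163505664), (481036337152, 68719476736), (412316860416, 412316860416)] :=
  covD_split 0 (by decide +kernel) Z_c0_t15 Z_c0_t18

theorem Z_c0 : CovD 1 gZ [(45813334016, 9163505664), (412316860416, 137438953472), (412316860416, 412316860416)] :=
  covD_split 1 (by decide +kernel) Z_c0_t1 Z_c0_t14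

end Pool.Agent.helper14.NS.Q20b
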