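import Pool.Agent.helper14.NS.Cert

/-!
Generated: table Q20b.
-/

namespace Pool.Agent.helper14.NS.Q20b

open Pool.Agent.helper63.NF Pool.Agent.helper4.NS

def tab : TD where
  strip := false
  bm := none
  ec := 45902462976
  bc := 412316860416
  H := [[[-47909270912, 19475154304, 5531056640, -9940266240], [-1871737566400, 245243828928], [2706337498560]], [[5563306240, 3719287360, -3763482432], [124442148608, -256717537472]], [[442985856, -1041011072, 1570424192], [15546730880]], [[-283696896, 113652608], [-5844479552]], [[45455040, 328000]], [[-3608064]], [[64192]]]
  pol := some ⟨-1026228748288, -12283606466560, 5872294035456, 31362867265536, [[47611979392, -276075371392], [4102990050176, 0]], [[1605427066496, 318915473280], [55825648668352, 0]]⟩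
  a := [[[181490745344, 110725824512, -327374536704, -849209327616], [-2062608433152, -11510591324160]], [[110310391808, 1672675328, -93878157312, 537779961856], [-284048031744, -1547640111104]], [[99599515648, 15018557440, -158108352512, -562488213504], [-125373186048, -174311735296]], [[90519240704, 14581170176, -127957073920, -563072270336], [-148912472064, 630977789952]], [[81500962816, 10992287744, -68598956032, -173077495808], [-221371629568, 1035391074304]], [[72837496832, 11240603648, -15566372864, -37302501376], [-280744886272, 1438045962240]]]
  j := [-14980845928448, 824633720832, 3435973836800, 5497558138880, 6734508720128, 7284264534016]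
  c := [879662989312, 989453090816, 769604452352, 549755813888, 439697276928, 329907175424]
  M := [[[[1097524903936, -8287944704, 43367399424], [-348591489024, 1045507866624], [12869851545600]], [[94699454464, 55957585920], [4056708218880]], [[83399868416, -98937405440], [1199592112128]], [[308724039680]], [[-542050811904]], [[463547793408]]], [[[1092816142336, 8560640000, 20693909504], [220543057920]], [[29371465728, 1480327168], [597914419200]], [[-1847459840]], [[199294976]]], [[[1095278657536, 6597312512, 19102564352], [237212008448]], [[27855814656, 1296760832], [576057901056]], [[-1409941504]], [[143392768]]], [[[1096514273280, 5724241920, 8322351104], [246798024704]], [[26790658048, 1358626816], [581862555648]], [[-1106968576]], [[104202240]]], [[[1097806839808, 6262161408, 14474608640], [186411122688]], [[26051543040, 1059323904], [563419152384]], [[-864157696]], [[71761920]]], [[[1097363554304, 7472021504, 19073400832], [222049599488]], [[26133921792, 614072320], [569218170880]], [[-831979520]], [[65011712]]]]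
  l0 := [[[3483141762880, 43520374144], [757506206912]], [[1281689246144, 17453331840], [-10196500627904]], [[321808359616, -394429715712], [-17562758969216]], [[-423942581056, 170294684672], [-14350865151872]], [[2302453331200, -63785643584], [20866695159552]], [[-4636379512832, -891866545408], [-51283477760384]], [[12683043138880]], [[-15275505515264]], [[17839325494848]], [[6800291033472]], [[-10148149941824]], [[22549629427968]]]
  q0 := [[68428339840, 183526322368, 17741228864], [1637201654656, 4676375628608], [2429375585856]]
  t := [[[1542820397056, 1214051647488, -62662967296, -805774950400], [1827715743744, -12208977346560]], [[771773956096, -184204918784, 155911847936, 4317349347328], [1812704198656, -6396205203456]], [[707966337024, -93956603904, -296703229952, -3355949334528], [1825176158208, 925676011520]], [[669586227200, -80988012544, -267324882944, -1462900162560], [1073497899008, 7011233562624]], [[617427369984, -47378268160, 94449631232, 630329311232], [582124568576, 11638510845952]], [[582405455872, 77505429504, 555830870016, -99526705152], [575381831680, 22769305780224]]]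
  y := [6648609374208, 7607460823040, 8515846406144, 9360881221632, 10074919534592, 10627896573952]
  sc := [0, 0, 0, 0, 0, 0]
  L := [(0, 2), (0, 3), (1, 1), (2, 0)]
  Lt := [(0, 2), (0, 3), (1, 1)]
  far := 3
  x2 := 10775214161920
  B1 := 879608463360
  C2 := 1379779086336
  f1 := 0
  f2 := 0
  f3 := 0
  is1 := 8796093022208
  s1 := 137438953472

end Pool.Agent.helper14.NS.Q20b
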